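import Pool.Agent.Helper894.LongFinal

set_option autoImplicit false

namespace Pool.Agent.Helper815.Coll

open Finset Classical
open Pool.Agent.Helper894.Collatz

theorem pow_bound (s : ℝ) (hs : 0 ≤ s) (m : ℕ) (hm : 2 * m * s ≤ 1) :
    ∀ j : ℕ, j ≤ m → (1 + s) ^ j ≤ 1 + 2 * j * s := by
  intro j
  induction j with
  | zero => intro _; simp
  | succ j ih =>
    intro hj
    have h1 := ih (by omega)
    have h2 : (j : ℝ) ≤ m := by exact_mod_cast (by omega : j ≤ m)
    have h3 : 2 * (j : ℝ) * s ≤ 1 := by nlinarith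
    rw [pow_succ]
    push_cast
    have h4 : (1 + s) ^ j * (1 + s) ≤ (1 + 2 * j * s) * (1 + s) :=
      mul_le_mul_of_nonneg_right h1 (by linarith)
    nlinarith

theorem exists_v (p : ℕ) : ∃ v : ℝ, 0 < v ∧ v < 1 ∧ 1 + v ^ (2 * (p + 1)) < 2 * v ^ p := by
  set m : ℝ := (p : ℝ) + 1 with hm
  have hm1 : 1 ≤ m := by rw [hm]; have : (0 : ℝ) ≤ p := by positivity
                         linarith
  set s : ℝ := 1 / (4 * m ^ 2) with hs
  have hs0 : 0 < s := by positivity
  have hsm : s * (4 * m ^ 2) = 1 := by rw [hs]; field_simp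
  have h2ms : 2 * m * s ≤ 1 := by nlinarith
  set y : ℝ := 1 + s with hy
  have hy1 : 1 < y := by rw [hy]; linarith
  have hy0 : 0 < y := by linarith
  have hu := pow_bound s hs0.le (p + 1) (by push_cast; exact h2ms) (p + 1) le_rfl
  rw [← hy] at hu
  push_cast at hu
  rw [← hm] at hu
  set u := y ^ (p + 1) with hu'
  have hu1 : 1 ≤ u := one_le_pow₀ hy1.le
  have hA : (u - 1) ^ 2 ≤ s := by
    have h1 : u - 1 ≤ 2 * m * s := by linarith
    have h2 : 0 ≤ u - 1 := by linarith
    have h3 : (u - 1) ^ 2 ≤ (2 * m * s) ^ 2 := pow_le_pow_left₀ h2 h1 2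
    have h4 : (2 * m * s) ^ 2 = s * (s * (4 * m ^ 2)) := by ring
    rw [h4, hsm, mul_one] at h3
    exact h3
  have hB : u ^ 2 + 1 < 2 * (u * y) := by
    have : s < 2 * (u * s) := by nlinarith
    rw [hy]
    nlinarith
  refine ⟨y⁻¹, inv_pos.2 hy0, inv_lt_one_of_one_lt₀ hy1, ?_⟩
  have e1 : u ^ 2 = y ^ (2 * (p + 1)) := by rw [hu']; ring
  have e2 : u * y = y ^ (p + 2) := by rw [hu']; ring
  rw [e1, e2] at hB
  have e3 : y⁻¹ ^ (2 * (p + 1)) * y ^ (2 * (p + 1)) = 1 := by
    rw [← mul_pow, inv_mul_cancel₀ hy0.ne', one_pow]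
  have e4 : y⁻¹ ^ (p + 2) * y ^ (p + 2) = 1 := by
    rw [← mul_pow, inv_mul_cancel₀ hy0.ne', one_pow]
  have e5 : y⁻¹ ^ (2 * (p + 1)) = y⁻¹ ^ p * y⁻¹ ^ (p + 2) := by ring
  have hpos : 0 < y⁻¹ ^ (2 * (p + 1)) := by positivity
  have h := mul_lt_mul_of_pos_left hB hpos
  have l : y⁻¹ ^ (2 * (p + 1)) * (y ^ (2 * (p + 1)) + 1) = 1 + y⁻¹ ^ (2 * (p + 1)) := by
    rw [mul_add, e3, mul_one]
  have r : y⁻¹ ^ (2 * (p + 1)) * (2 * y ^ (p + 2)) = 2 * y⁻¹ ^ p := by
    rw [e5]
    calc y⁻¹ ^ p * y⁻¹ ^ (p + 2) * (2 * y ^ (p + 2))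
        = 2 * y⁻¹ ^ p * (y⁻¹ ^ (p + 2) * y ^ (p + 2)) := by ring
      _ = 2 * y⁻¹ ^ p := by rw [e4, mul_one]
  rw [l, r] at h
  exact h

theorem low_tail (p k : ℕ) (v : ℝ) (hv0 : 0 < v) (hv1 : v < 1) :
    (((range (2 ^ k)).filter (fun x => 2 * (p + 1) * od k x < p * k)).card : ℝ) *
      (v ^ p) ^ k ≤ (1 + v ^ (2 * (p + 1))) ^ k := by
  rw [← sum_pow_od, ← nsmul_eq_mul, ← sum_const]
  refine (sum_le_sum (fun x hx => ?_)).trans
      (sum_le_sum_of_subset_of_nonneg
        (filter_subset (fun x => 2 * (p + 1) * od k x < p * k) _)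
        (fun x _ _ => by positivity))
  simp only [mem_filter] at hx
  rw [← pow_mul, ← pow_mul]
  exact pow_le_pow_of_le_one hv0.le hv1.le hx.2.le

theorem win_small' (p A : ℕ) : ∃ K0 : ℕ, ∀ k, K0 ≤ k →
    ((range (2 ^ k)).filter (fun x => 2 * (p + 1) * od k x < p * k)).card * k ^ A ≤ 2 ^ k := by
  obtain ⟨v, hv0, hv1, hv⟩ := exists_v p
  set r : ℝ := (1 + v ^ (2 * (p + 1))) / (2 * v ^ p) with hr
  have hvp : 0 < v ^ p := by positivity
  have hr0 : 0 ≤ r := by positivity
  have hr1 : r < 1 := by rw [hr, div_lt_one (by positivity)]; exact hv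
  have h := tendsto_pow_const_mul_const_pow_of_lt_one A (r := r) hr0 hr1
  have h2 := h.eventually (gt_mem_nhds (show (0 : ℝ) < 1 by norm_num))
  obtain ⟨K0, hK⟩ := Filter.eventually_atTop.1 h2
  refine ⟨K0, fun k hk => ?_⟩
  have h3 := hK k hk
  have h4 := low_tail p k v hv0 hv1
  have e : (1 + v ^ (2 * (p + 1))) = 2 * r * v ^ p := by
    rw [hr]; field_simp
  rw [e, mul_pow (2 * r)] at h4
  have h5 := le_of_mul_le_mul_right h4 (by positivity)
  have h6 : (((range (2 ^ k)).filter (fun x => 2 * (p + 1) * od k x < p * k)).card : ℝ) *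
      (k : ℝ) ^ A ≤ 2 ^ k := by
    calc _ ≤ (2 * r) ^ k * (k : ℝ) ^ A := mul_le_mul_of_nonneg_right h5 (by positivity)
      _ = 2 ^ k * ((k : ℝ) ^ A * r ^ k) := by rw [mul_pow]; ring
      _ ≤ 2 ^ k * 1 := mul_le_mul_of_nonneg_left h3.le (by positivity)
      _ = 2 ^ k := by ring
  exact_mod_cast h6

theorem kap_log (n : ℕ) : Real.log 3 / Real.log 2 * n ≤ kap n := by
  have h1 : ((3 : ℝ) ^ n) ≤ 2 ^ kap n := by exact_mod_cast le_two_pow_kap n
  have h2 := Real.log_le_log (by positivity) h1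
  rw [Real.log_pow, Real.log_pow] at h2
  have hL : 0 < Real.log 2 := Real.log_pos (by norm_num)
  rw [div_mul_eq_mul_div, div_le_iff₀ hL]
  linarith

theorem P_mono {c c' : ℝ} (h : c' ≤ c) (hP : P c) : P c' := by
  intro A
  obtain ⟨K0, hK⟩ := hP A
  refine ⟨K0, fun k hk => le_trans (Nat.mul_le_mul_right _ ?_) (hK k hk)⟩
  unfold cnt
  apply card_le_card
  intro x hx
  simp only [mem_filter] at hx ⊢
  refine ⟨hx.1, fun hD => hx.2 ?_⟩
  obtain ⟨K, h1, h2⟩ := hD
  exact ⟨K, le_trans (mul_le_mul_of_nonneg_right h (by positivity)) h1, h2⟩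

theorem P_step' (p : ℕ) {c : ℝ} (hc : 0 ≤ c) (hP : P c) :
    P ((p : ℝ) / (2 * (p + 1)) * (1 + Real.log 3 / Real.log 2 * c)) := by
  intro A
  obtain ⟨K0, hK⟩ := card_bad hP A
  obtain ⟨K1, hK1⟩ := win_small' p (A + 1)
  refine ⟨K0 + K1 + 4, fun k hk => ?_⟩
  have h1 := hK k (by omega) 0 (by omega)
  have h1' := hK1 k (by omega)
  have hκ : 0 ≤ Real.log 3 / Real.log 2 :=
    div_nonneg (Real.log_nonneg (by norm_num)) (Real.log_nonneg (by norm_num))
  have hsub : (range (2 ^ k)).filter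
      (fun x => ¬ D ((p : ℝ) / (2 * (p + 1)) * (1 + Real.log 3 / Real.log 2 * c)) k x) ⊆
      (range (2 ^ k)).filter (fun t => ¬ Good c 0 k t) ∪
      (range (2 ^ k)).filter (fun x => 2 * (p + 1) * od k x < p * k) := by
    intro x hx
    simp only [mem_filter, mem_union] at hx ⊢
    by_cases hG : Good c 0 k x
    · by_cases hw : 2 * (p + 1) * od k x < p * k
      · exact Or.inr ⟨hx.1, hw⟩
      · exfalso
        apply hx.2
        obtain ⟨hW, K, hK1, hK2⟩ := hG
        rw [fam_zero] at hW hK1 hK2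
        rw [add_zero] at hK1
        refine ⟨k + K, ?_, ?_⟩
        · rw [od_add]
          push_cast
          push Not at hw
          have a1 : (p : ℝ) * k ≤ 2 * (p + 1) * od k x := by exact_mod_cast hw
          have a1' : (p : ℝ) / (2 * (p + 1)) * k ≤ od k x := by
            rw [div_mul_eq_mul_div, div_le_iff₀ (by positivity)]
            linarith
          have a2 := kap_log (od k x)
          have a3 : c * (Real.log 3 / Real.log 2 * od k x) ≤ c * kap (od k x) :=
            mul_le_mul_of_nonneg_left a2 hc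
          have a4 : (1 + Real.log 3 / Real.log 2 * c) * ((p : ℝ) / (2 * (p + 1)) * k) ≤
              (1 + Real.log 3 / Real.log 2 * c) * od k x :=
            mul_le_mul_of_nonneg_left a1' (by positivity)
          linarith
        · rw [add_comm, Function.iterate_add_apply]
          exact hK2
    · exact Or.inl ⟨hx.1, hG⟩
  have h2 := (card_le_card hsub).trans (card_union_le _ _)
  have h3 := Nat.mul_le_mul_right (k ^ A) h2
  rw [add_mul] at h3
  have h4 : 4 * (((range (2 ^ k)).filter (fun x => 2 * (p + 1) * od k x < p * k)).card * k ^ A) ≤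
      2 ^ k := by
    refine le_trans ?_ h1'
    rw [pow_succ, mul_comm (k ^ A) k, mul_left_comm]
    exact Nat.mul_le_mul_left _ (Nat.mul_le_mul_right _ (by omega))
  unfold cnt
  omega

/-- the density statement with the optimal constant. -/
theorem P_all {c : ℝ} (hc : 0 ≤ c) (hc' : c * Real.log (4 / 3) < Real.log 2) : P c := by
  have hL : 0 < Real.log 2 := Real.log_pos (by norm_num)
  have hl : Real.log (4 / 3) = 2 * Real.log 2 - Real.log 3 := by
    rw [Real.log_div (by norm_num) (by norm_num)]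
    have : (4 : ℝ) = 2 ^ 2 := by norm_num
    rw [this, Real.log_pow]; push_cast; ring
  set κ := Real.log 3 / Real.log 2 with hκdef
  have hκ : 0 ≤ κ := div_nonneg (Real.log_nonneg (by norm_num)) hL.le
  have hκL : κ * Real.log 2 = Real.log 3 := by rw [hκdef]; field_simp
  have hκ2 : κ < 2 := by
    rw [hκdef, div_lt_iff₀ hL]
    have := Real.log_pos (show (1 : ℝ) < 4 / 3 by norm_num)
    linarith
  have h1 : c < (1 + κ * c) / 2 := by
    have : c * (2 - κ) * Real.log 2 < 1 * Real.log 2 := by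
      rw [hl] at hc'
      rw [one_mul]
      calc c * (2 - κ) * Real.log 2 = c * (2 * Real.log 2 - κ * Real.log 2) := by ring
        _ < Real.log 2 := by rw [hκL]; exact hc'
    have := lt_of_mul_lt_mul_right this hL.le
    linarith
  have hpos : 0 < 1 + κ * c := by positivity
  obtain ⟨p, hp⟩ := exists_nat_one_div_lt (show (0 : ℝ) < ((1 + κ * c) / 2 - c) / (1 + κ * c) from
    div_pos (by linarith) hpos)
  rw [lt_div_iff₀ hpos] at hp
  have hp1 : (0 : ℝ) < (p : ℝ) + 1 := by positivity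
  set lam : ℝ := (p : ℝ) / (2 * (p + 1)) with hlam
  have hlam' : lam = 1 / 2 - 1 / 2 * (1 / (p + 1)) := by
    rw [hlam]; field_simp; ring
  have hinv : (0 : ℝ) < 1 / ((p : ℝ) + 1) := by positivity
  set η := lam * (1 + κ * c) - c with hη
  have hη0 : 0 < η := by
    rw [hη, hlam']
    have := mul_pos hinv hpos
    linarith
  have hlam0 : 0 ≤ lam := by positivity
  have hlamκ : lam * κ ≤ 1 := by
    have : lam ≤ 1 / 2 := by rw [hlam']; linarith
    nlinarith
  have key : ∀ r : ℕ, P (min c (r * η)) := by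
    intro r
    induction r with
    | zero =>
      rw [Nat.cast_zero, zero_mul, min_eq_right hc]
      exact P_zero
    | succ r ih =>
      have h0 : 0 ≤ min c (r * η) := le_min hc (by positivity)
      refine P_mono ?_ (P_step' p h0 ih)
      rw [← hκdef, ← hlam]
      have g1 : min c (r * η) ≤ c := min_le_left _ _
      have g2 : min c (r * η) + η ≤ lam * (1 + κ * min c (r * η)) := by
        rw [hη]
        nlinarith
      refine le_trans ?_ g2
      rcases le_total c (r * η) with h | h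
      · rw [min_eq_left h]
        exact (min_le_left _ _).trans (by linarith)
      · rw [min_eq_right h]
        refine (min_le_right _ _).trans ?_
        push_cast
        linarith
  obtain ⟨r, hr⟩ := exists_nat_ge (c / η)
  have := key r
  rwa [min_eq_left (by rw [div_le_iff₀ hη0] at hr; exact hr)] at this

end Pool.Agent.Helper815.Coll
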