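import Pool.Agent.Helper815.Coll.Avg

set_option autoImplicit false

namespace Pool.Agent.Helper815.Coll

open Finset Classical
open Pool.Agent.Helper894.Collatz

theorem sigma_lower {c : ℝ} {k n s : ℕ} (hn : 1 ≤ n) (hD : D c k n) (h1 : T^[s] n = 1) :
    c * k * Real.log 3 + Real.log n ≤ s * Real.log 2 := by
  obtain ⟨K, hc, hK⟩ := hD
  rcases le_or_gt s K with h | h
  · obtain ⟨d, rfl⟩ := Nat.exists_eq_add_of_le h
    rw [add_comm, Function.iterate_add_apply, h1] at hK
    have := iter_one d
    omega
  · have e1 := iter_eq s n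
    rw [h1, mul_one] at e1
    have e2 : 3 ^ od K n * n ≤ 2 ^ s := by
      rw [e1]
      have : 3 ^ od K n * n ≤ 3 ^ od s n * n :=
        Nat.mul_le_mul_right _ (Nat.pow_le_pow_right (by norm_num) (od_le_of_le h.le))
      omega
    have e3 : ((3 : ℝ) ^ od K n * n) ≤ 2 ^ s := by exact_mod_cast e2
    have hn' : (0 : ℝ) < n := by exact_mod_cast hn
    have e4 := Real.log_le_log (by positivity) e3
    rw [Real.log_mul (by positivity) (by positivity), Real.log_pow, Real.log_pow] at e4
    have h3 : 0 ≤ Real.log 3 := Real.log_nonneg (by norm_num)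
    have := mul_le_mul_of_nonneg_right hc h3
    linarith

theorem log_factorial_ge (x : ℕ) (hx : 1 ≤ x) :
    (x : ℝ) * Real.log x - x ≤ Real.log (x.factorial : ℝ) := by
  have h := Real.pow_div_factorial_le_exp (x : ℝ) (by positivity) x
  have hx' : (0 : ℝ) < x := by exact_mod_cast hx
  have hf : (0 : ℝ) < x.factorial := by exact_mod_cast Nat.factorial_pos x
  have h2 := Real.log_le_log (by positivity) h
  rw [Real.log_exp, Real.log_div (by positivity) (by positivity), Real.log_pow] at h2
  linarith

theorem sum_log (x : ℕ) : ∑ n ∈ Icc 1 x, Real.log (n : ℝ) = Real.log (x.factorial : ℝ) := by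
  induction x with
  | zero => simp
  | succ x ih =>
    rw [Finset.sum_Icc_succ_top (by omega), ih, Nat.factorial_succ]
    push_cast
    rw [Real.log_mul (by positivity) (by positivity)]
    ring

/-- lower bound for averages of total stopping times. -/
theorem core_avg {B : ℝ} (hB : B * Real.log (4 / 3) < 2) : ∃ X : ℕ, ∀ x : ℕ, X ≤ x →
    ∃ β : ℕ → ℝ, (∀ n ∈ Icc 1 x, 0 ≤ β n ∧ ∀ s : ℕ, T^[s] n = 1 → β n ≤ s) ∧
      B * x * Real.log x ≤ ∑ n ∈ Icc 1 x, β n := by
  have hL : 0 < Real.log 2 := Real.log_pos (by norm_num)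
  have hL1 : Real.log 2 < 1 := by have := Real.log_two_lt_d9; linarith
  have h3 : 0 < Real.log 3 := Real.log_pos (by norm_num)
  have hM : 0 < Real.log (4 / 3) := Real.log_pos (by norm_num)
  have hl : Real.log (4 / 3) = 2 * Real.log 2 - Real.log 3 := by
    rw [Real.log_div (by norm_num) (by norm_num)]
    have : (4 : ℝ) = 2 ^ 2 := by norm_num
    rw [this, Real.log_pow]; push_cast; ring
  set L := Real.log 2 with hLdef
  set R := Real.log 3 with hRdef
  set κ := R / L with hκ
  have hκL : κ * L = R := by rw [hκ]; field_simp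
  have hκ0 : 0 < κ := div_pos h3 hL
  -- choose c
  have hc1 : max 0 ((B * L - 1) / κ) < L / Real.log (4 / 3) := by
    apply max_lt (div_pos hL hM)
    rw [div_lt_div_iff₀ hκ0 hM]
    have : B * Real.log (4 / 3) * L < 2 * L := mul_lt_mul_of_pos_right hB hL
    have e : L * κ = R := by rw [mul_comm]; exact hκL
    rw [e, sub_mul, one_mul, hl]
    rw [hl] at this
    nlinarith
  obtain ⟨c, hc, hc'⟩ := exists_between hc1
  have hc0 : 0 ≤ c := (le_max_left _ _).trans hc.le
  have hcB : B * L - 1 < c * κ := by
    have := (le_max_right _ _).trans_lt hc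
    rw [div_lt_iff₀ hκ0] at this
    exact this
  have hP : P c := P_all hc0 (by rw [lt_div_iff₀ hM] at hc'; exact hc')
  obtain ⟨K0, hK0⟩ := hP 1
  set E : ℝ := c * κ + 1 with hE
  have hE0 : 0 < E := by positivity
  set η : ℝ := E - B * L with hη
  have hη0 : 0 < η := by rw [hη, hE]; linarith
  -- threshold
  obtain ⟨X1, hX1⟩ := exists_nat_ge (Real.exp ((E * 2 + 1) / η))
  refine ⟨2 ^ K0 + X1 + 1, fun x hx => ?_⟩
  have hpw : 0 < 2 ^ K0 := by positivity
  have hx1 : 1 ≤ x := by omega
  have hx0 : x ≠ 0 := by omega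
  have hxr : (0 : ℝ) < x := by exact_mod_cast hx1
  have hlogx0 : 0 ≤ Real.log x := Real.log_natCast_nonneg x
  have hlogx : (E * 2 + 1) / η ≤ Real.log x := by
    rw [Real.le_log_iff_exp_le hxr]
    refine hX1.trans ?_
    exact_mod_cast (by omega : X1 ≤ x)
  rw [div_le_iff₀ hη0] at hlogx
  set k := Nat.log 2 x + 1 with hk
  have hk1 : x < 2 ^ k := Nat.lt_pow_succ_log_self (by norm_num) x
  have hk2 : 2 ^ k ≤ 2 * x := by
    rw [hk, pow_succ, mul_comm]
    exact Nat.mul_le_mul_left _ (Nat.pow_log_le_self 2 hx0)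
  have hkK : K0 ≤ k := by
    have : 2 ^ K0 < 2 ^ k := lt_of_le_of_lt (by omega) hk1
    exact ((Nat.pow_lt_pow_iff_right (by norm_num)).1 this).le
  have hcnt := hK0 k hkK
  rw [pow_one] at hcnt
  have hklog : Real.log x ≤ k * L := by
    have : (x : ℝ) ≤ 2 ^ k := by exact_mod_cast hk1.le
    have h := Real.log_le_log hxr this
    rwa [Real.log_pow] at h
  have hbeta : ∀ n ∈ Icc 1 x, 0 ≤ c * κ * Real.log x + Real.log n := by
    intro n _
    have := Real.log_natCast_nonneg n
    positivity
  refine ⟨fun n => if D c k n then (c * κ * Real.log x + Real.log n) / L else 0, ?_, ?_⟩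
  · intro n hn
    have hn1 : 1 ≤ n := (mem_Icc.1 hn).1
    refine ⟨?_, fun s hs => ?_⟩
    · simp only
      split_ifs
      · exact div_nonneg (hbeta n hn) hL.le
      · exact le_rfl
    · simp only
      split_ifs with hD
      · rw [div_le_iff₀ hL]
        refine le_trans ?_ (sigma_lower hn1 hD hs)
        have : c * κ * Real.log x ≤ c * k * R := by
          calc c * κ * Real.log x ≤ c * κ * (k * L) :=
                mul_le_mul_of_nonneg_left hklog (by positivity)
            _ = c * k * (κ * L) := by ring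
            _ = c * k * R := by rw [hκL]
        linarith
      · positivity
  · -- the sum
    have hsplit : ∑ n ∈ Icc 1 x, (if D c k n then (c * κ * Real.log x + Real.log n) / L else 0) =
        (∑ n ∈ Icc 1 x, (c * κ * Real.log x + Real.log n)
          - ∑ n ∈ (Icc 1 x).filter (fun n => ¬ D c k n), (c * κ * Real.log x + Real.log n)) / L := by
      rw [← Finset.sum_filter_add_sum_filter_not (Icc 1 x) (fun n => D c k n)
        (fun n => c * κ * Real.log x + Real.log (n : ℝ)), add_sub_cancel_right, Finset.sum_div,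
        Finset.sum_filter]
    rw [hsplit, le_div_iff₀ hL]
    have hall : ∑ n ∈ Icc 1 x, (c * κ * Real.log x + Real.log n) =
        x * (c * κ * Real.log x) + Real.log (x.factorial : ℝ) := by
      rw [Finset.sum_add_distrib, sum_log, Finset.sum_const, Nat.card_Icc, nsmul_eq_mul]
      simp
    have hbadcard : (((Icc 1 x).filter (fun n => ¬ D c k n)).card : ℝ) * Real.log x ≤ 2 * x := by
      have a1 : ((Icc 1 x).filter (fun n => ¬ D c k n)).card ≤ cnt c k := by
        unfold cnt
        apply card_le_card
        intro n hn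
        simp only [mem_filter, mem_Icc, mem_range] at hn ⊢
        exact ⟨by omega, hn.2⟩
      have a2 : ((Icc 1 x).filter (fun n => ¬ D c k n)).card * k ≤ 2 * x :=
        (Nat.mul_le_mul_right _ a1).trans (hcnt.trans hk2)
      have a3 : (((Icc 1 x).filter (fun n => ¬ D c k n)).card : ℝ) * k ≤ 2 * x := by
        exact_mod_cast a2
      calc (((Icc 1 x).filter (fun n => ¬ D c k n)).card : ℝ) * Real.log x
          ≤ (((Icc 1 x).filter (fun n => ¬ D c k n)).card : ℝ) * (k * L) :=
            mul_le_mul_of_nonneg_left hklog (by positivity)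
        _ = ((((Icc 1 x).filter (fun n => ¬ D c k n)).card : ℝ) * k) * L := by ring
        _ ≤ (2 * x) * L := mul_le_mul_of_nonneg_right a3 hL.le
        _ ≤ (2 * x) * 1 := mul_le_mul_of_nonneg_left hL1.le (by positivity)
        _ = 2 * x := by ring
    have hbad : ∑ n ∈ (Icc 1 x).filter (fun n => ¬ D c k n),
        (c * κ * Real.log x + Real.log n) ≤ E * (2 * x) := by
      calc ∑ n ∈ (Icc 1 x).filter (fun n => ¬ D c k n), (c * κ * Real.log x + Real.log n)
          ≤ ∑ n ∈ (Icc 1 x).filter (fun n => ¬ D c k n), E * Real.log x := by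
            apply Finset.sum_le_sum
            intro n hn
            simp only [mem_filter, mem_Icc] at hn
            have hn0 : (0 : ℝ) < n := by exact_mod_cast hn.1.1
            have : Real.log n ≤ Real.log x :=
              Real.log_le_log hn0 (by exact_mod_cast hn.1.2)
            rw [hE, add_mul, one_mul]
            linarith
        _ = E * ((((Icc 1 x).filter (fun n => ¬ D c k n)).card : ℝ) * Real.log x) := by
            rw [Finset.sum_const, nsmul_eq_mul]; ring
        _ ≤ E * (2 * x) := mul_le_mul_of_nonneg_left hbadcard hE0.le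
    have hfac := log_factorial_ge x hx1
    rw [hall]
    have hfin : B * x * Real.log x * L ≤ x * (E * Real.log x) - x - E * (2 * x) := by
      have : (x : ℝ) * (E * 2 + 1) ≤ x * (Real.log x * η) := mul_le_mul_of_nonneg_left hlogx hxr.le
      rw [hη] at this
      nlinarith
    rw [hE] at hfin hbad
    nlinarith

end Pool.Agent.Helper815.Coll
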