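import Pool.Agent.Helper815.Coll.Avg2

set_option autoImplicit false

namespace Pool.Agent.Helper815.Coll

open Finset Classical
open Pool.Agent.Helper894.Collatz

/-- few `n` have a small total stopping time. -/
theorem core_density {B : ℝ} (hB : B * Real.log (4 / 3) < 2) (A : ℕ) : ∃ X : ℕ, ∀ x : ℕ, X ≤ x →
    (((Icc 1 x).filter (fun n : ℕ => ∃ s : ℕ, T^[s] n = 1 ∧ (s : ℝ) < B * Real.log n)).card : ℝ)
      * Real.log x ^ A ≤ x := by
  have hL : 0 < Real.log 2 := Real.log_pos (by norm_num)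
  have hL1 : Real.log 2 < 1 := by have := Real.log_two_lt_d9; linarith
  have h3 : 0 < Real.log 3 := Real.log_pos (by norm_num)
  have hM : 0 < Real.log (4 / 3) := Real.log_pos (by norm_num)
  have hl : Real.log (4 / 3) = 2 * Real.log 2 - Real.log 3 := by
    rw [Real.log_div (by norm_num) (by norm_num)]
    have : (4 : ℝ) = 2 ^ 2 := by norm_num
    rw [this, Real.log_pow]; push_cast; ring
  set L := Real.log 2 with hLdef
  set R := Real.log 3 with hRdef
  set κ := R / L with hκ
  have hκL : κ * L = R := by rw [hκ]; field_simp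
  have hκ0 : 0 < κ := div_pos h3 hL
  -- choose c
  have hc1 : max 0 ((B * L - 1) / κ) < L / Real.log (4 / 3) := by
    apply max_lt (div_pos hL hM)
    rw [div_lt_div_iff₀ hκ0 hM]
    have : B * Real.log (4 / 3) * L < 2 * L := mul_lt_mul_of_pos_right hB hL
    have e : L * κ = R := by rw [mul_comm]; exact hκL
    rw [e, sub_mul, one_mul, hl]
    rw [hl] at this
    nlinarith
  obtain ⟨c, hc, hc'⟩ := exists_between hc1
  have hc0 : 0 ≤ c := (le_max_left _ _).trans hc.le
  have hcB : B * L - 1 < c * κ := by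
    have := (le_max_right _ _).trans_lt hc
    rw [div_lt_iff₀ hκ0] at this
    exact this
  have hP : P c := P_all hc0 (by rw [lt_div_iff₀ hM] at hc'; exact hc')
  obtain ⟨K0, hK0⟩ := hP (A + 1)
  -- threshold
  obtain ⟨X1, hX1⟩ := exists_nat_ge (Real.exp 2)
  refine ⟨2 ^ K0 + X1 + 1, fun x hx => ?_⟩
  have hpw : 0 < 2 ^ K0 := by positivity
  have hx1 : 1 ≤ x := by omega
  have hx0 : x ≠ 0 := by omega
  have hxr : (0 : ℝ) < x := by exact_mod_cast hx1
  have hlogx : 2 ≤ Real.log x := by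
    rw [Real.le_log_iff_exp_le hxr]
    refine hX1.trans ?_
    exact_mod_cast (by omega : X1 ≤ x)
  set k := Nat.log 2 x + 1 with hk
  have hk1 : x < 2 ^ k := Nat.lt_pow_succ_log_self (by norm_num) x
  have hk2 : 2 ^ k ≤ 2 * x := by
    rw [hk, pow_succ, mul_comm]
    exact Nat.mul_le_mul_left _ (Nat.pow_log_le_self 2 hx0)
  have hkK : K0 ≤ k := by
    have : 2 ^ K0 < 2 ^ k := lt_of_le_of_lt (by omega) hk1
    exact ((Nat.pow_lt_pow_iff_right (by norm_num)).1 this).le
  have hcnt := hK0 k hkK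
  have hklog : Real.log x ≤ k * L := by
    have : (x : ℝ) ≤ 2 ^ k := by exact_mod_cast hk1.le
    have h := Real.log_le_log hxr this
    rwa [Real.log_pow] at h
  have hk0 : (0 : ℝ) ≤ k := by positivity
  have hklog' : Real.log x ≤ k := by nlinarith
  have a1 : ((Icc 1 x).filter (fun n : ℕ => ∃ s : ℕ, T^[s] n = 1 ∧
      (s : ℝ) < B * Real.log n)).card ≤ cnt c k := by
    unfold cnt
    apply card_le_card
    intro n hn
    simp only [mem_filter, mem_Icc, mem_range] at hn ⊢
    obtain ⟨⟨hn1, hnx⟩, s, hs, hsB⟩ := hn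
    refine ⟨by omega, fun hD => ?_⟩
    have h := sigma_lower hn1 hD hs
    rw [← hLdef, ← hRdef] at h
    have hlogn0 : 0 ≤ Real.log (n : ℝ) := Real.log_natCast_nonneg n
    have hn0 : (0 : ℝ) < n := by exact_mod_cast hn1
    have hlognx : Real.log n ≤ Real.log x := Real.log_le_log hn0 (by exact_mod_cast hnx)
    have h5 : c * κ * Real.log n ≤ c * k * R := by
      calc c * κ * Real.log n ≤ c * κ * (k * L) :=
            mul_le_mul_of_nonneg_left (hlognx.trans hklog) (by positivity)
        _ = c * k * (κ * L) := by ring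
        _ = c * k * R := by rw [hκL]
    have h6 : (s : ℝ) * L < B * Real.log n * L := mul_lt_mul_of_pos_right hsB hL
    have h7 : (B * L - 1) * Real.log n ≤ c * κ * Real.log n :=
      mul_le_mul_of_nonneg_right hcB.le hlogn0
    nlinarith
  have a2 : ((Icc 1 x).filter (fun n : ℕ => ∃ s : ℕ, T^[s] n = 1 ∧
      (s : ℝ) < B * Real.log n)).card * k ^ (A + 1) ≤ 2 * x :=
    (Nat.mul_le_mul_right _ a1).trans (hcnt.trans hk2)
  set N := ((Icc 1 x).filter (fun n : ℕ => ∃ s : ℕ, T^[s] n = 1 ∧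
      (s : ℝ) < B * Real.log n)).card with hN
  have a3 : (N : ℝ) * k ^ (A + 1) ≤ 2 * x := by exact_mod_cast a2
  have a4 : (N : ℝ) * Real.log x ^ (A + 1) ≤ 2 * x := by
    refine le_trans ?_ a3
    exact mul_le_mul_of_nonneg_left (pow_le_pow_left₀ (by linarith) hklog' _) (by positivity)
  rw [pow_succ] at a4
  have a5 : (0 : ℝ) ≤ N * Real.log x ^ A := by positivity
  nlinarith

end Pool.Agent.Helper815.Coll
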