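import Pool.Agent.Helper894.LongFinal

set_option autoImplicit false

namespace Pool.Agent.Helper815.Coll

open Finset Classical
open Pool.Agent.Helper894.Collatz

theorem exists_P' : ∃ c : ℝ, 2271 / 1000 ≤ c ∧ P c := by
  refine ⟨_, ?_, (P_iter 40).2⟩
  have key : ∀ r : ℕ, (fun c : ℝ => 99 / 200 * (1 + 79 / 50 * c))^[r] 0
      = 4950 / 2179 * (1 - (7821 / 10000) ^ r) := by
    intro r
    induction r with
    | zero => simp
    | succ r ih =>
      rw [Function.iterate_succ_apply', ih, pow_succ]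
      ring
  rw [key]
  norm_num

/-- the numerical heart: `36/5 * log n ≤ k`. -/
theorem long' {n K M : ℕ} (hn : 0 < n) (hK : 2 < T^[K] n)
    (hlog : Real.log n ≤ 28 * M * Real.log 2)
    (hod : (7054 / 100 : ℝ) * M ≤ od K n) :
    ∀ k : ℕ, T^[k] n = 1 → 36 / 5 * Real.log n ≤ k := by
  intro k h1
  rcases le_or_gt k K with h | h
  · obtain ⟨d, rfl⟩ := Nat.exists_eq_add_of_le h
    rw [add_comm, Function.iterate_add_apply, h1] at hK
    have := iter_one d
    omega
  · by_contra hk
    push Not at hk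
    have e1 := iter_eq k n
    rw [h1, mul_one] at e1
    have e2 : 3 ^ od K n * n ≤ 2 ^ k := by
      rw [e1]
      have : 3 ^ od K n * n ≤ 3 ^ od k n * n :=
        Nat.mul_le_mul_right _ (Nat.pow_le_pow_right (by norm_num) (od_le_of_le h.le))
      omega
    have e3 : ((3 : ℝ) ^ od K n * n) ≤ 2 ^ k := by exact_mod_cast e2
    have hn' : (0 : ℝ) < n := by exact_mod_cast hn
    have e4 := Real.log_le_log (by positivity) e3
    rw [Real.log_mul (by positivity) (by positivity), Real.log_pow, Real.log_pow] at e4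
    have hL1 : Real.log 2 < 0.6931471808 := Real.log_two_lt_d9
    have hL2 : 0.6931471803 < Real.log 2 := Real.log_two_gt_d9
    have h3 : 84 * Real.log 2 ≤ 53 * Real.log 3 := by
      have : ((2 : ℝ) ^ 84) ≤ 3 ^ 53 := by norm_num
      have h := Real.log_le_log (by positivity) this
      rw [Real.log_pow, Real.log_pow] at h
      exact_mod_cast h
    set L := Real.log 2 with hL
    set R := Real.log 3 with hR
    have hM0 : (0 : ℝ) ≤ M := by positivity
    have hlogn : 0 ≤ Real.log n := Real.log_natCast_nonneg n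
    -- k L < 7.2 log n L
    have a1 : (k : ℝ) * L < 36 / 5 * Real.log n * L := mul_lt_mul_of_pos_right hk (by linarith)
    have a2 : (od K n : ℝ) * R < (36 / 5 * L - 1) * Real.log n := by nlinarith
    have a3 : (36 / 5 * L - 1) * Real.log n ≤ (36 / 5 * L - 1) * (28 * M * L) :=
      mul_le_mul_of_nonneg_left hlog (by linarith)
    have a4 : (7054 / 100 : ℝ) * M * (84 / 53 * L) ≤ od K n * R := by
      apply mul_le_mul hod (by linarith) (by positivity) (by positivity)
    have a5 : (36 / 5 * L - 1) * 28 ≤ 7054 / 100 * (84 / 53) := by nlinarith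
    have a6 : (36 / 5 * L - 1) * 28 * (M * L) ≤ 7054 / 100 * (84 / 53) * (M * L) :=
      mul_le_mul_of_nonneg_right a5 (by positivity)
    nlinarith

theorem main' (N : ℕ) : ∃ n : ℕ, N < n ∧ 1 < n ∧
    ∀ k : ℕ, T^[k] n = 1 → 36 / 5 * Real.log n ≤ k := by
  obtain ⟨c, hc, hP⟩ := exists_P'
  obtain ⟨K0, hK0⟩ := card_bad hP 0
  obtain ⟨M, hM⟩ : ∃ M, M = K0 + N + 1 := ⟨_, rfl⟩
  have h1 := hK0 (25 * M) (by omega) (3 * M) (by omega)
  rw [pow_zero, mul_one] at h1
  -- there is a good t
  have hex : ∃ t, t < 2 ^ (25 * M) ∧ Good c (3 * M) (25 * M) t := by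
    by_contra hcon
    push Not at hcon
    have : (range (2 ^ (25 * M))).filter (fun t => ¬ Good c (3 * M) (25 * M) t) =
        range (2 ^ (25 * M)) := by
      apply filter_true_of_mem
      intro t ht
      exact hcon t (mem_range.1 ht)
    rw [this, card_range] at h1
    have : 0 < 2 ^ (25 * M) := by positivity
    omega
  obtain ⟨t, ht, hW, K, hK1, hK2⟩ := hex
  obtain ⟨c1, c2⟩ := climb (3 * M) t
  set n := 2 ^ (3 * M) * (t + 1) - 1 with hn
  have hfam : T^[3 * M] n = fam (3 * M) t := c1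
  have hbig : M < n := by
    have a1 : 2 ^ (3 * M) * 1 ≤ 2 ^ (3 * M) * (t + 1) :=
      Nat.mul_le_mul_left _ (Nat.succ_le_succ (Nat.zero_le t))
    have a2 : 3 * M < 2 ^ (3 * M) := Nat.lt_two_pow_self
    omega
  have hlt : n < 2 ^ (28 * M) := by
    have a1 : 2 ^ (3 * M) * (t + 1) ≤ 2 ^ (3 * M) * 2 ^ (25 * M) :=
      Nat.mul_le_mul_left _ (Nat.succ_le_of_lt ht)
    rw [← pow_add] at a1
    have a2 : 3 * M + 25 * M = 28 * M := by ring
    rw [a2] at a1
    have : 0 < 2 ^ (3 * M) * (t + 1) := by positivity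
    omega
  refine ⟨n, by omega, by omega, ?_⟩
  -- the late point
  have hT : T^[K + (25 * M + 3 * M)] n = T^[K] (T^[25 * M] (fam (3 * M) t)) := by
    rw [Function.iterate_add_apply, Function.iterate_add_apply, hfam]
  have hod : od (3 * M + (25 * M + K)) n =
      3 * M + (od (25 * M) (fam (3 * M) t) + od K (T^[25 * M] (fam (3 * M) t))) := by
    rw [od_add, c2, hfam, od_add]
  have hidx : K + (25 * M + 3 * M) = 3 * M + (25 * M + K) := by ring
  rw [hidx] at hT
  apply long' (K := 3 * M + (25 * M + K)) (M := M) (by omega)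
  · rw [hT]; exact hK2
  · have : (n : ℝ) ≤ 2 ^ (28 * M) := by exact_mod_cast hlt.le
    have h := Real.log_le_log (by exact_mod_cast (by omega : 0 < n)) this
    rw [Real.log_pow] at h
    exact_mod_cast h
  · -- the count
    set a := od (25 * M) (fam (3 * M) t) with ha
    set b := od K (T^[25 * M] (fam (3 * M) t)) with hb
    have g1 : (99 : ℝ) * (25 * M) ≤ 200 * a := by exact_mod_cast hW.1
    have g2 : (79 : ℝ) * (a + 3 * M) ≤ 50 * kap (a + 3 * M) := by
      exact_mod_cast kap_ge (a + 3 * M)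
    have g3 : c * kap (a + 3 * M) ≤ b := hK1
    have g4 : (2271 / 1000 : ℝ) * kap (a + 3 * M) ≤ c * kap (a + 3 * M) :=
      mul_le_mul_of_nonneg_right hc (by positivity)
    rw [hod]
    push_cast
    have : (0 : ℝ) ≤ M := by positivity
    linarith

end Pool.Agent.Helper815.Coll
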