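import Pool.Agent.Helper815.Coll.Avg2

set_option autoImplicit false

namespace Pool.Agent.Helper815.Coll

open Finset Classical
open Pool.Agent.Helper894.Collatz

/-- the accelerated map on odd numbers. -/
def C (n : ℕ) : ℕ := (3 * n + 1) / 2 ^ padicValNat 2 (3 * n + 1)

theorem halve (a : ℕ) : ∀ y : ℕ, T^[a] (2 ^ a * y) = y ∧ od a (2 ^ a * y) = 0 := by
  induction a with
  | zero => intro y; simp [od]
  | succ a ih =>
    intro y
    have e : 2 ^ (a + 1) * y = 2 ^ a * (2 * y) := by ring
    obtain ⟨h1, h2⟩ := ih (2 * y)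
    rw [e]
    refine ⟨?_, ?_⟩
    · rw [Function.iterate_succ_apply', h1]
      unfold T
      rw [if_pos (by omega)]
      omega
    · rw [od_succ, h1, h2]
      omega

theorem C_odd (n : ℕ) : C n % 2 = 1 := by
  have h : ¬ 2 ∣ (3 * n + 1) / 2 ^ padicValNat 2 (3 * n + 1) := by
    intro hd
    have h1 : 2 ^ padicValNat 2 (3 * n + 1) ∣ 3 * n + 1 := pow_padicValNat_dvd
    have h2 : 2 ^ (padicValNat 2 (3 * n + 1) + 1) ∣ 3 * n + 1 := by
      obtain ⟨t, ht⟩ := hd
      have h3 : 3 * n + 1 = 2 ^ padicValNat 2 (3 * n + 1) * (2 * t) := by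
        rw [← ht, Nat.mul_div_cancel' h1]
      refine ⟨t, ?_⟩
      rw [pow_succ, mul_assoc]
      exact h3
    exact pow_succ_padicValNat_not_dvd (by omega) h2
  unfold C
  omega

theorem C_step (n : ℕ) (hn : n % 2 = 1) : ∃ e : ℕ, T^[e] n = C n ∧ od e n = 1 := by
  have h1 : 2 ^ padicValNat 2 (3 * n + 1) ∣ 3 * n + 1 := pow_padicValNat_dvd
  have h2 : 3 * n + 1 = 2 ^ padicValNat 2 (3 * n + 1) * C n := by
    unfold C
    rw [Nat.mul_div_cancel' h1]
  have h3 : 1 ≤ padicValNat 2 (3 * n + 1) :=
    one_le_padicValNat_of_dvd (by omega) (by omega)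
  obtain ⟨a, ha⟩ := Nat.exists_eq_add_of_le h3
  have h4 : T n = 2 ^ a * C n := by
    unfold T
    rw [if_neg (by omega), h2, ha, pow_add, pow_one, mul_assoc]
    omega
  refine ⟨a + 1, ?_, ?_⟩
  · rw [Function.iterate_succ_apply, h4]
    exact (halve a _).1
  · rw [add_comm a 1, od_add]
    have h5 : od 1 n = 1 := by simp [od, hn]
    rw [h5, Function.iterate_one, h4, (halve a _).2]

theorem C_iter (j : ℕ) (n : ℕ) (hn : n % 2 = 1) : ∃ K : ℕ, T^[K] n = C^[j] n ∧ od K n = j := by
  induction j with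
  | zero => exact ⟨0, rfl, by simp [od]⟩
  | succ j ih =>
    obtain ⟨K, hK1, hK2⟩ := ih
    have hodd : C^[j] n % 2 = 1 := by
      cases j with
      | zero => simpa using hn
      | succ j => rw [Function.iterate_succ_apply']; exact C_odd _
    obtain ⟨e, he1, he2⟩ := C_step _ hodd
    refine ⟨K + e, ?_, ?_⟩
    · rw [add_comm, Function.iterate_add_apply, hK1, he1, Function.iterate_succ_apply']
    · rw [od_add, hK1, he2, hK2]

theorem height_lower {c : ℝ} {k n h : ℕ} (hn : n % 2 = 1) (hD : D c k n) (h1 : C^[h] n = 1) :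
    c * k ≤ h := by
  obtain ⟨K, hc, hK⟩ := hD
  obtain ⟨K', hK1, hK2⟩ := C_iter h n hn
  rw [h1] at hK1
  rcases le_or_gt K' K with hle | hlt
  · obtain ⟨d, rfl⟩ := Nat.exists_eq_add_of_le hle
    rw [add_comm, Function.iterate_add_apply, hK1] at hK
    have := iter_one d
    omega
  · have h2 := od_le_of_le (x := n) hlt.le
    rw [hK2] at h2
    exact hc.trans (by exact_mod_cast h2)

theorem card_odd (x : ℕ) : x ≤ 2 * ((Icc 1 x).filter (fun m => Odd m)).card := by
  have h : ((range ((x + 1) / 2)).image (fun i => 2 * i + 1)) ⊆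
      (Icc 1 x).filter (fun m => Odd m) := by
    intro m hm
    simp only [mem_image, mem_range] at hm
    obtain ⟨i, hi, rfl⟩ := hm
    rw [mem_filter, mem_Icc]
    exact ⟨⟨by omega, by omega⟩, ⟨i, rfl⟩⟩
  have h2 := card_le_card h
  rw [card_image_of_injective _ (fun a b hab => by simpa using hab), card_range] at h2
  omega

/-- lower bound for averages of heights. -/
theorem core_height {B : ℝ} (hB : B * Real.log (4 / 3) < 1) : ∃ X : ℕ, ∀ x : ℕ, X ≤ x →
    ∃ β : ℕ → ℝ, (∀ n, Odd n → 0 ≤ β n ∧ ∀ h : ℕ, C^[h] n = 1 → β n ≤ h) ∧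
      B * x * Real.log x ≤ 2 * ∑ n ∈ (Icc 1 x).filter (fun m => Odd m), β n := by
  have hL : 0 < Real.log 2 := Real.log_pos (by norm_num)
  have hL1 : Real.log 2 < 1 := by have := Real.log_two_lt_d9; linarith
  have hM : 0 < Real.log (4 / 3) := Real.log_pos (by norm_num)
  set L := Real.log 2 with hLdef
  -- choose c
  have hc1 : max 0 (B * L) < L / Real.log (4 / 3) := by
    apply max_lt (div_pos hL hM)
    rw [lt_div_iff₀ hM]
    nlinarith
  obtain ⟨c, hc, hc'⟩ := exists_between hc1
  have hc0 : 0 ≤ c := (le_max_left _ _).trans hc.le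
  have hcB : B * L < c := (le_max_right _ _).trans_lt hc
  have hP : P c := P_all hc0 (by rw [lt_div_iff₀ hM] at hc'; exact hc')
  obtain ⟨K0, hK0⟩ := hP 1
  set η : ℝ := c / L - B with hη
  have hη0 : 0 < η := by rw [hη, sub_pos, lt_div_iff₀ hL]; exact hcB
  -- threshold
  obtain ⟨X1, hX1⟩ := exists_nat_ge (Real.exp ((4 * (c / L)) / η))
  refine ⟨2 ^ K0 + X1 + 1, fun x hx => ?_⟩
  have hpw : 0 < 2 ^ K0 := by positivity
  have hx1 : 1 ≤ x := by omega
  have hx0 : x ≠ 0 := by omega
  have hxr : (0 : ℝ) < x := by exact_mod_cast hx1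
  have hlogx0 : 0 ≤ Real.log x := Real.log_natCast_nonneg x
  have hlogx : (4 * (c / L)) / η ≤ Real.log x := by
    rw [Real.le_log_iff_exp_le hxr]
    refine hX1.trans ?_
    exact_mod_cast (by omega : X1 ≤ x)
  rw [div_le_iff₀ hη0] at hlogx
  set k := Nat.log 2 x + 1 with hk
  have hk1 : x < 2 ^ k := Nat.lt_pow_succ_log_self (by norm_num) x
  have hk2 : 2 ^ k ≤ 2 * x := by
    rw [hk, pow_succ, mul_comm]
    exact Nat.mul_le_mul_left _ (Nat.pow_log_le_self 2 hx0)
  have hkK : K0 ≤ k := by
    have : 2 ^ K0 < 2 ^ k := lt_of_le_of_lt (by omega) hk1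
    exact ((Nat.pow_lt_pow_iff_right (by norm_num)).1 this).le
  have hcnt := hK0 k hkK
  rw [pow_one] at hcnt
  have hklog : Real.log x ≤ k * L := by
    have : (x : ℝ) ≤ 2 ^ k := by exact_mod_cast hk1.le
    have h := Real.log_le_log hxr this
    rwa [Real.log_pow] at h
  have hcL : 0 ≤ c / L := div_nonneg hc0 hL.le
  refine ⟨fun n => if D c k n then c / L * Real.log x else 0, ?_, ?_⟩
  · intro n hn
    refine ⟨?_, fun h hh => ?_⟩
    · simp only
      split_ifs
      · exact mul_nonneg hcL hlogx0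
      · exact le_rfl
    · simp only
      split_ifs with hD
      · refine le_trans ?_ (height_lower (Nat.odd_iff.1 hn) hD hh)
        calc c / L * Real.log x ≤ c / L * (k * L) := mul_le_mul_of_nonneg_left hklog hcL
          _ = c * k := by field_simp
      · positivity
  · -- the sum
    set S := (Icc 1 x).filter (fun m => Odd m) with hS
    have hsum : ∑ n ∈ S, (if D c k n then c / L * Real.log x else 0) =
        ((S.filter (fun n => D c k n)).card : ℝ) * (c / L * Real.log x) := by
      rw [← Finset.sum_filter, Finset.sum_const, nsmul_eq_mul]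
    have hpart : ((S.filter (fun n => D c k n)).card : ℝ) +
        ((S.filter (fun n => ¬ D c k n)).card : ℝ) = S.card := by
      exact_mod_cast Finset.card_filter_add_card_filter_not (s := S) (fun n => D c k n)
    have hbadcard : ((S.filter (fun n => ¬ D c k n)).card : ℝ) * Real.log x ≤ 2 * x := by
      have a1 : (S.filter (fun n => ¬ D c k n)).card ≤ cnt c k := by
        unfold cnt
        apply card_le_card
        intro n hn
        rw [hS] at hn
        simp only [mem_filter, mem_Icc, mem_range] at hn ⊢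
        exact ⟨by omega, hn.2⟩
      have a2 : (S.filter (fun n => ¬ D c k n)).card * k ≤ 2 * x :=
        (Nat.mul_le_mul_right _ a1).trans (hcnt.trans hk2)
      have a3 : ((S.filter (fun n => ¬ D c k n)).card : ℝ) * k ≤ 2 * x := by
        exact_mod_cast a2
      calc ((S.filter (fun n => ¬ D c k n)).card : ℝ) * Real.log x
          ≤ ((S.filter (fun n => ¬ D c k n)).card : ℝ) * (k * L) :=
            mul_le_mul_of_nonneg_left hklog (by positivity)
        _ = (((S.filter (fun n => ¬ D c k n)).card : ℝ) * k) * L := by ring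
        _ ≤ (2 * x) * L := mul_le_mul_of_nonneg_right a3 hL.le
        _ ≤ (2 * x) * 1 := mul_le_mul_of_nonneg_left hL1.le (by positivity)
        _ = 2 * x := by ring
    have hodd : (x : ℝ) ≤ 2 * S.card := by exact_mod_cast card_odd x
    rw [hsum]
    have e1 : 2 * (((S.filter (fun n => D c k n)).card : ℝ) * (c / L * Real.log x)) =
        (c / L) * (2 * S.card * Real.log x)
          - 2 * (c / L) * (((S.filter (fun n => ¬ D c k n)).card : ℝ) * Real.log x) := by
      rw [← hpart]; ring
    rw [e1]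
    have e2 : (c / L) * (x * Real.log x) ≤ (c / L) * (2 * S.card * Real.log x) :=
      mul_le_mul_of_nonneg_left (mul_le_mul_of_nonneg_right hodd hlogx0) hcL
    have e3 : 2 * (c / L) * (((S.filter (fun n => ¬ D c k n)).card : ℝ) * Real.log x) ≤
        2 * (c / L) * (2 * x) := mul_le_mul_of_nonneg_left hbadcard (by positivity)
    have e4 : (4 * (c / L)) * x ≤ (Real.log x * η) * x :=
      mul_le_mul_of_nonneg_right hlogx hxr.le
    rw [hη] at e4
    nlinarith

end Pool.Agent.Helper815.Coll
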